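import Pool.Agent.Helper52.TC.Spec

/-!
# Real perturbations with given first order changes of the unit distances (module P)
-/

set_option autoImplicit false

namespace Pool.Agent.Helper56.TC

open Pool.Agent.Helper52.TC

/-- upper and lower estimate for a vector close to a unit vector -/
theorem sqrt_near {a b s : ℝ} (ha : 1 / 2 ≤ a) (hb : b ^ 2 ≤ s) :
    a ≤ Real.sqrt (a ^ 2 + b ^ 2) ∧ Real.sqrt (a ^ 2 + b ^ 2) ≤ a + s := by
  have hs : 0 ≤ s := (sq_nonneg b).trans hb
  constructor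
  · apply Real.le_sqrt_of_sq_le
    nlinarith [sq_nonneg b]
  · rw [Real.sqrt_le_left (by linarith)]
    nlinarith

theorem far_coord {u : ℤ} {x δ : ℝ} (hx : |x| ≤ δ) (hδ : δ ≤ 1 / 10) (hu : 2 ≤ |u|) :
    3 / 2 ≤ |(u : ℝ) + x| := by
  have h1 : (2 : ℝ) ≤ |(u : ℝ)| := by exact_mod_cast hu
  have h2 := abs_sub_abs_le_abs_sub (u : ℝ) (-x)
  rw [abs_neg, sub_neg_eq_add] at h2
  linarith

theorem near_coord {u : ℤ} {x δ : ℝ} (hx : |x| ≤ δ) (hδ : δ ≤ 1 / 10) (hu : 1 ≤ |u|) :
    9 / 10 ≤ |(u : ℝ) + x| := by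
  have h1 : (1 : ℝ) ≤ |(u : ℝ)| := by exact_mod_cast hu
  have h2 := abs_sub_abs_le_abs_sub (u : ℝ) (-x)
  rw [abs_neg, sub_neg_eq_add] at h2
  linarith

/-- estimate for the pairs which are not unit pairs -/
theorem sqrt_far {u v : ℤ} {x y δ : ℝ} (hx : |x| ≤ δ) (hy : |y| ≤ δ) (hδ : δ ≤ 1 / 10)
    (h : 2 ≤ |u| ∨ 2 ≤ |v| ∨ (1 ≤ |u| ∧ 1 ≤ |v|)) :
    5 / 4 ≤ Real.sqrt (((u : ℝ) + x) ^ 2 + ((v : ℝ) + y) ^ 2) := by
  apply Real.le_sqrt_of_sq_le
  have e1 := sq_abs ((u : ℝ) + x)
  have e2 := sq_abs ((v : ℝ) + y)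
  rcases h with h | h | ⟨h, h'⟩
  · have := far_coord hx hδ h
    nlinarith [sq_nonneg ((v : ℝ) + y)]
  · have := far_coord hy hδ h
    nlinarith [sq_nonneg ((u : ℝ) + x)]
  · have h1 := near_coord hx hδ h
    have h2 := near_coord hy hδ h'
    nlinarith

/-- (P) real perturbations with given first order changes of the unit distances -/
theorem P : specP := by
  intro m pos wH wV hinj
  set A : ℕ × ℕ → ℝ := fun p => ∑ x' ∈ Finset.range p.1, wH x' p.2 with hA
  set B : ℕ × ℕ → ℝ := fun p => ∑ y' ∈ Finset.range p.2, wV p.1 y' with hB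
  set E : ℝ := 1 + ∑ i, (|A (pos i)| + |B (pos i)|) with hE
  have hnn : ∀ i ∈ (Finset.univ : Finset (Fin m)), 0 ≤ |A (pos i)| + |B (pos i)| :=
    fun i _ => by positivity
  have hE1 : 1 ≤ E := by
    have := Finset.sum_nonneg hnn
    linarith
  have hAB : ∀ i, |A (pos i)| ≤ E ∧ |B (pos i)| ≤ E := by
    intro i
    have h1 := Finset.single_le_sum hnn (Finset.mem_univ i)
    have h2 := abs_nonneg (A (pos i))
    have h3 := abs_nonneg (B (pos i))
    constructor <;> linarith
  refine ⟨4 * E ^ 2, by positivity, 1 / (20 * E), by positivity, fun t ht ht0 => ?_⟩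
  have htE : t * (2 * E) ≤ 1 / 10 := by
    rw [lt_div_iff₀ (by positivity)] at ht0
    linarith
  have hd : ∀ f : ℕ × ℕ → ℝ, (∀ i, |f (pos i)| ≤ E) → ∀ i j,
      |t * (f (pos j) - f (pos i))| ≤ t * (2 * E) := by
    intro f hf i j
    rw [abs_mul, abs_of_pos ht]
    refine mul_le_mul_of_nonneg_left ?_ ht.le
    have h1 := abs_sub (f (pos j)) (f (pos i))
    have h2 := hf i
    have h3 := hf j
    linarith
  have hdA := hd A fun i => (hAB i).1
  have hdB := hd B fun i => (hAB i).2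
  have hsq : ∀ x : ℝ, |x| ≤ t * (2 * E) → x ^ 2 ≤ 4 * E ^ 2 * t ^ 2 := by
    intro x hx
    have h1 := sq_abs x
    have h2 := abs_nonneg x
    nlinarith
  refine ⟨fun i => ((pos i).1 + t * A (pos i), (pos i).2 + t * B (pos i)), ?_, ?_, ?_, ?_⟩
  · intro i
    have hK : E * t ≤ 4 * E ^ 2 * t := by
      apply mul_le_mul_of_nonneg_right _ ht.le
      nlinarith
    obtain ⟨h1, h2⟩ := hAB i
    simp only [add_sub_cancel_left]
    rw [abs_mul, abs_mul, abs_of_pos ht]
    constructor <;> nlinarith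
  · intro i j hij
    have e1 : A (pos j) - A (pos i) = wH (pos i).1 (pos i).2 := by
      simp only [hA, hij]
      rw [Finset.sum_range_succ]; ring
    have h1 := hdA i j
    rw [e1] at h1
    have h2 := hsq _ (hdB j i)
    have h3 := (abs_le.mp h1).1
    have h4 := sqrt_near (a := 1 + t * wH (pos i).1 (pos i).2) (by linarith) h2
    have e2 : rd2 ((pos i).1 + t * A (pos i), (pos i).2 + t * B (pos i))
        ((pos j).1 + t * A (pos j), (pos j).2 + t * B (pos j))
        = Real.sqrt ((1 + t * wH (pos i).1 (pos i).2) ^ 2 + (t * (B (pos i) - B (pos j))) ^ 2) := by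
      unfold rd2
      congr 1
      have e3 : ((pos j).1 : ℝ) = (pos i).1 + 1 := by rw [hij]; push_cast; rfl
      have e4 : ((pos j).2 : ℝ) = (pos i).2 := by rw [hij]
      rw [← e1]
      simp only [e3, e4]
      ring
    rw [e2]
    exact h4
  · intro i j hij
    have e1 : B (pos j) - B (pos i) = wV (pos i).1 (pos i).2 := by
      simp only [hB, hij]
      rw [Finset.sum_range_succ]; ring
    have h1 := hdB i j
    rw [e1] at h1
    have h2 := hsq _ (hdA j i)
    have h3 := (abs_le.mp h1).1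
    have h4 := sqrt_near (a := 1 + t * wV (pos i).1 (pos i).2) (by linarith) h2
    have e2 : rd2 ((pos i).1 + t * A (pos i), (pos i).2 + t * B (pos i))
        ((pos j).1 + t * A (pos j), (pos j).2 + t * B (pos j))
        = Real.sqrt ((1 + t * wV (pos i).1 (pos i).2) ^ 2 + (t * (A (pos i) - A (pos j))) ^ 2) := by
      unfold rd2
      congr 1
      have e3 : ((pos j).2 : ℝ) = (pos i).2 + 1 := by rw [hij]; push_cast; rfl
      have e4 : ((pos j).1 : ℝ) = (pos i).1 := by rw [hij]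
      rw [← e1]
      simp only [e3, e4]
      ring
    rw [e2]
    exact h4
  · intro i j hij hU
    have hne : pos i ≠ pos j := fun h => hij (hinj h)
    have hfar : 2 ≤ |((pos i).1 : ℤ) - (pos j).1| ∨ 2 ≤ |((pos i).2 : ℤ) - (pos j).2| ∨
        (1 ≤ |((pos i).1 : ℤ) - (pos j).1| ∧ 1 ≤ |((pos i).2 : ℤ) - (pos j).2|) := by
      unfold Un at hU
      generalize pos i = p at hU hne
      generalize pos j = q at hU hne
      obtain ⟨a, b⟩ := p
      obtain ⟨c, d⟩ := q
      simp only [Prod.mk.injEq, ne_eq, not_or, not_and, le_abs] at hU hne ⊢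
      omega
    have h5 := sqrt_far (hdA j i) (hdB j i) htE hfar
    have e2 : rd2 ((pos i).1 + t * A (pos i), (pos i).2 + t * B (pos i))
        ((pos j).1 + t * A (pos j), (pos j).2 + t * B (pos j))
        = Real.sqrt ((((((pos i).1 : ℤ) - (pos j).1 : ℤ) : ℝ) + t * (A (pos i) - A (pos j))) ^ 2
          + (((((pos i).2 : ℤ) - (pos j).2 : ℤ) : ℝ) + t * (B (pos i) - B (pos j))) ^ 2) := by
      unfold rd2
      congr 1
      push_cast
      ring
    rw [e2]
    exact h5

end Pool.Agent.Helper56.TC
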