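import Pool.Agent.Helper52.TC.Spec

/-!
# From a circuit to the exponent vectors near `pos` (module R)
-/

set_option autoImplicit false

namespace Pool.Agent.Helper56.TC

open Pool.Agent.Helper52.TC

/-! ### closed tours as lists -/

section lists

variable {α : Type} (d : α → α → ℝ)

/-- length of the path from `a` through `l` to `b` -/
def pl : α → List α → α → ℝ
  | a, [], b => d a b
  | a, c :: l, b => d a c + pl c l b

/-- length of the closed tour through the list -/
def clen : List α → ℝ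
  | [] => 0
  | h :: t => pl d h t h

variable {d}

theorem pl_tri_left (tri : ∀ a b c, d a c ≤ d a b + d b c) (a c b : α) (l : List α) :
    pl d a l b ≤ d a c + pl d c l b := by
  cases l with
  | nil => exact tri a c b
  | cons x l =>
    simp only [pl]
    have := tri a c x
    linarith

theorem pl_tri_right (tri : ∀ a b c, d a c ≤ d a b + d b c) (a : α) (l : List α) (b c : α) :
    pl d a l c ≤ pl d a l b + d b c := by
  induction l generalizing a with
  | nil => exact tri a b c
  | cons x l ih =>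
    simp only [pl]
    have := ih x
    linarith

theorem pl_sublist (tri : ∀ a b c, d a c ≤ d a b + d b c) {l' l : List α} (h : l'.Sublist l)
    (a b : α) : pl d a l' b ≤ pl d a l b := by
  induction h generalizing a with
  | slnil => exact le_rfl
  | cons c _ ih => exact (ih a).trans (pl_tri_left tri a c b _)
  | cons_cons c _ ih =>
    simp only [pl]
    have := ih c
    linarith

theorem pl_nonneg (nn : ∀ a b, 0 ≤ d a b) (a : α) (l : List α) (b : α) : 0 ≤ pl d a l b := by
  induction l generalizing a with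
  | nil => exact nn a b
  | cons x l ih => exact add_nonneg (nn a x) (ih x)

/-- a tour through fewer cities is not longer -/
theorem clen_sublist (tri : ∀ a b c, d a c ≤ d a b + d b c) (nn : ∀ a b, 0 ≤ d a b)
    {l' l : List α} (h : l'.Sublist l) : clen d l' ≤ clen d l := by
  cases h with
  | slnil => exact le_rfl
  | @cons l' l c h =>
    cases l' with
    | nil => exact pl_nonneg nn _ _ _
    | cons x l' =>
      change pl d x l' x ≤ pl d c l c
      have h1 := pl_sublist tri h c c
      simp only [pl] at h1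
      have h2 := pl_tri_right tri x l' c x
      linarith
  | @cons_cons l' l c h => exact pl_sublist tri h c c

theorem pl_append (a : α) (l : List α) (x : α) (l' : List α) (b : α) :
    pl d a (l ++ x :: l') b = pl d a l x + pl d x l' b := by
  induction l generalizing a with
  | nil => rfl
  | cons y l ih =>
    simp only [List.cons_append, pl]
    rw [ih]; ring

/-- rotation invariance -/
theorem clen_rotate_one (a : α) (l : List α) : clen d (l ++ [a]) = clen d (a :: l) := by
  cases l with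
  | nil => rfl
  | cons x l =>
    change pl d x (l ++ [a]) x = pl d a (x :: l) a
    rw [pl_append]
    simp only [pl]
    ring

theorem clen_rotate (l : List α) (k : ℕ) : clen d (l.rotate k) = clen d l := by
  induction k with
  | zero => rw [List.rotate_zero]
  | succ k ih =>
    rw [← List.rotate_rotate]
    cases h : l.rotate k with
    | nil => rw [h] at ih; simpa using ih
    | cons a t =>
      rw [h] at ih
      rw [List.rotate_cons_succ, List.rotate_zero, clen_rotate_one]
      exact ih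

theorem pl_ofFn {n : ℕ} (f : Fin n → α) (a b : α) :
    pl d a (List.ofFn f) b = match n, f with
      | 0, _ => d a b
      | n + 1, f => d a (f 0) + (∑ i : Fin n, d (f i.castSucc) (f i.succ)) + d (f (Fin.last n)) b := by
  induction n generalizing a with
  | zero => simp [pl]
  | succ n ih =>
    rw [List.ofFn_succ]
    simp only [pl]
    rw [ih]
    cases n with
    | zero => simp
    | succ n =>
      simp only
      rw [Fin.sum_univ_succ (n := n)]
      simp only [Fin.castSucc_zero, Fin.succ_zero_eq_one, Fin.succ_last, Fin.castSucc_succ]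
      simp only [Nat.succ_eq_add_one]
      ring

/-- the length of a tour in terms of lists -/
theorem sum_eq_clen {n : ℕ} (f : Fin n → α) :
    (∑ i, d (f i) (f (finRotate n i))) = clen d (List.ofFn f) := by
  cases n with
  | zero => simp [clen]
  | succ n =>
    rw [Fin.sum_univ_castSucc, finRotate_last]
    have h1 : ∀ i : Fin n, finRotate (n + 1) i.castSucc = i.succ := by
      intro i
      rw [finRotate_apply]
      apply Fin.ext
      simp
    simp only [h1]
    rw [List.ofFn_succ]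
    change _ = pl d (f 0) (List.ofFn fun i : Fin n => f i.succ) (f 0)
    rw [pl_ofFn]
    cases n with
    | zero => simp
    | succ n =>
      simp only
      rw [Fin.sum_univ_succ (n := n)]
      simp only [Fin.castSucc_zero, Fin.succ_castSucc, Fin.succ_last]

theorem pl_replicate (d0 : ∀ a, d a a = 0) (a : α) (k : ℕ) (l : List α) (b : α) :
    pl d a (List.replicate k a ++ l) b = pl d a l b := by
  induction k with
  | zero => simp
  | succ k ih =>
    rw [List.replicate_succ, List.cons_append]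
    simp only [pl]
    rw [ih, d0, zero_add]

end lists

/-- a complete list without repetitions is given by a permutation -/
theorem perm_of_list {N : ℕ} (T : List (Fin N)) (hT : T.Nodup) (hlen : T.length = N) :
    ∃ σ : Equiv.Perm (Fin N), List.ofFn (fun i => σ i) = T := by
  have hinj : Function.Injective fun i : Fin N => T.get (Fin.cast hlen.symm i) := by
    intro i j h
    have := List.nodup_iff_injective_get.mp hT h
    exact Fin.cast_injective _ this
  refine ⟨Equiv.ofBijective _ (Finite.injective_iff_bijective.mp hinj), ?_⟩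
  apply List.ext_get
  · simp [hlen]
  · intro n h1 h2
    simp

theorem ofFn_comp {α β : Type} {n : ℕ} (f : Fin n → α) (g : α → β) :
    List.ofFn (fun i => g (f i)) = (List.ofFn f).map g := by
  rw [List.map_ofFn]; rfl

/-! ### the real distance -/

theorem rd2_eq_norm (p q : ℝ × ℝ) : rd2 p q = ‖(⟨p.1 - q.1, p.2 - q.2⟩ : ℂ)‖ := by
  unfold rd2
  rw [Complex.norm_def, Complex.normSq_apply]
  congr 1
  ring

theorem rd2_nonneg (p q : ℝ × ℝ) : 0 ≤ rd2 p q := Real.sqrt_nonneg _

theorem rd2_self (p : ℝ × ℝ) : rd2 p p = 0 := by simp [rd2]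

theorem rd2_comm (p q : ℝ × ℝ) : rd2 p q = rd2 q p := by
  unfold rd2
  congr 1
  ring

theorem rd2_tri (p q r : ℝ × ℝ) : rd2 p r ≤ rd2 p q + rd2 q r := by
  rw [rd2_eq_norm, rd2_eq_norm, rd2_eq_norm]
  refine le_trans (le_of_eq ?_) (norm_add_le _ _)
  congr 1
  apply Complex.ext <;> simp

theorem rd2_le (p q : ℝ × ℝ) : rd2 p q ≤ |p.1 - q.1| + |p.2 - q.2| := by
  unfold rd2
  rw [Real.sqrt_le_left (by positivity)]
  have h1 := sq_abs (p.1 - q.1)
  have h2 := sq_abs (p.2 - q.2)
  nlinarith [abs_nonneg (p.1 - q.1), abs_nonneg (p.2 - q.2)]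

theorem rd2_scale {l : ℝ} (hl : 0 ≤ l) (p q : ℝ × ℝ) :
    rd2 (l * p.1, l * p.2) (l * q.1, l * q.2) = l * rd2 p q := by
  unfold rd2
  have : (l * p.1 - l * q.1) ^ 2 + (l * p.2 - l * q.2) ^ 2
      = l ^ 2 * ((p.1 - q.1) ^ 2 + (p.2 - q.2) ^ 2) := by ring
  simp only
  rw [this, Real.sqrt_mul (by positivity), Real.sqrt_sq hl]

theorem edist_eq (p q : ℤ × ℤ) :
    Pool.Agent.Helper52.ETSP.edist p q = rd2 ((p.1 : ℝ), (p.2 : ℝ)) ((q.1 : ℝ), (q.2 : ℝ)) := by
  unfold Pool.Agent.Helper52.ETSP.edist rd2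
  push_cast
  rfl

/-! ### tours of the folded points -/

/-- removing the additional points -/
theorem exists_remove {n t : ℕ} (hn : 0 < n) (q : Fin n → ℝ × ℝ)
    (σ' : Equiv.Perm (Fin (n + t))) :
    ∃ σ : Equiv.Perm (Fin n), rlen q σ ≤ rlen (fun i => q (fold hn i)) σ' := by
  set T' : List (Fin (n + t)) := List.ofFn fun i => σ' i with hT'
  have hT'n : T'.Nodup := List.nodup_ofFn.mpr σ'.injective
  have hmem' : ∀ x, x ∈ T' := by
    intro x
    rw [hT', List.mem_ofFn]
    exact ⟨σ'.symm x, by simp⟩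
  obtain ⟨T, hT⟩ : ∃ T : List (Fin n), T.map (Fin.castAdd t) = T'.filter fun x => decide (x.1 < n) := by
    have : ∀ l : List (Fin (n + t)), ∃ T : List (Fin n),
        T.map (Fin.castAdd t) = l.filter fun x => decide (x.1 < n) := by
      intro l
      induction l with
      | nil => exact ⟨[], rfl⟩
      | cons x l ih =>
        obtain ⟨T, hT⟩ := ih
        by_cases hx : x.1 < n
        · exact ⟨⟨x.1, hx⟩ :: T, by
            rw [List.filter_cons_of_pos (by simpa using hx), List.map_cons, hT]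
            rfl⟩
        · exact ⟨T, by rw [List.filter_cons_of_neg (by simpa using hx), hT]⟩
    exact this T'
  have hTn : T.Nodup := by
    rw [← List.nodup_map_iff (Fin.castAdd_injective n t), hT]
    exact hT'n.filter _
  have hmem : ∀ x, x ∈ T := by
    intro x
    have h1 : Fin.castAdd t x ∈ T'.filter fun x => decide (x.1 < n) := by
      rw [List.mem_filter]
      exact ⟨hmem' _, by simp⟩
    rw [← hT, List.mem_map] at h1
    obtain ⟨y, hy, hy2⟩ := h1
    rwa [Fin.castAdd_injective _ _ hy2] at hy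
  have hlen : T.length = n := by
    have h1 : T.toFinset = Finset.univ := by
      ext x; simp [hmem x]
    rw [← List.toFinset_card_of_nodup hTn, h1, Finset.card_univ, Fintype.card_fin]
  obtain ⟨σ, hσ⟩ := perm_of_list T hTn hlen
  refine ⟨σ, ?_⟩
  unfold rlen
  rw [sum_eq_clen (d := rd2) (fun i => q (σ i)),
    sum_eq_clen (d := rd2) (fun i => q (fold hn (σ' i)))]
  have e0 : List.ofFn (fun i => q (fold hn (σ' i))) = T'.map (fun i => q (fold hn i)) := by
    rw [hT', List.map_ofFn]; rfl
  have e00 : List.ofFn (fun i => q (σ i)) = T.map q := by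
    rw [ofFn_comp, hσ]
  rw [e00, e0]
  have e : T.map q = (T'.filter fun x => decide (x.1 < n)).map (fun i => q (fold hn i)) := by
    rw [← hT, List.map_map]
    congr 1
    funext j
    simp [fold]
  rw [e]
  exact clen_sublist (fun a b c => rd2_tri a b c) rd2_nonneg (List.filter_sublist.map _)

/-- inserting the additional points -/
theorem exists_insert {n t : ℕ} (hn : 0 < n) (q : Fin n → ℝ × ℝ) (σ : Equiv.Perm (Fin n)) :
    ∃ σ' : Equiv.Perm (Fin (n + t)), rlen (fun i => q (fold hn i)) σ' = rlen q σ := by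
  set i0 : Fin n := ⟨0, hn⟩ with hi0d
  set T : List (Fin n) := List.ofFn fun i => σ i with hT
  have hTn : T.Nodup := List.nodup_ofFn.mpr σ.injective
  have hi0 : i0 ∈ T := by
    rw [hT, List.mem_ofFn]
    exact ⟨σ.symm i0, by simp⟩
  obtain ⟨k, hk⟩ := List.getElem_of_mem hi0
  obtain ⟨hkl, hk⟩ := hk
  obtain ⟨rest, hrest⟩ : ∃ rest, T.rotate k = i0 :: rest := by
    have h1 : (T.rotate k).length = T.length := List.length_rotate ..
    cases h : T.rotate k with
    | nil => rw [h] at h1; simp at h1; omega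
    | cons a rest =>
      refine ⟨rest, ?_⟩
      have h2 : (T.rotate k)[0]? = some a := by rw [h]; rfl
      rw [List.getElem?_eq_getElem (by omega), List.getElem_rotate] at h2
      simp only [zero_add, Nat.mod_eq_of_lt hkl, Option.some.injEq] at h2
      rw [← h2, hk]
  set T' : List (Fin (n + t)) := Fin.castAdd t i0 ::
    ((List.ofFn fun j : Fin t => Fin.natAdd n j) ++ rest.map (Fin.castAdd t)) with hT'
  have hrn : (i0 :: rest).Nodup := by rw [← hrest]; exact List.nodup_rotate.mpr hTn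
  have hlen : T'.length = n + t := by
    have : (T.rotate k).length = n := by rw [List.length_rotate, hT, List.length_ofFn]
    rw [hrest, List.length_cons] at this
    rw [hT']
    simp only [List.length_cons, List.length_append, List.length_ofFn, List.length_map]
    omega
  have hnod : T'.Nodup := by
    rw [hT', List.nodup_cons]
    rw [List.nodup_cons] at hrn
    constructor
    · rw [List.mem_append, not_or]
      constructor
      · rw [List.mem_ofFn]
        rintro ⟨j, hj⟩
        have := congrArg Fin.val hj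
        simp at this
        omega
      · intro h
        rw [List.mem_map] at h
        obtain ⟨x, hx, hx2⟩ := h
        rw [Fin.castAdd_injective _ _ hx2] at hx
        exact hrn.1 hx
    · rw [List.nodup_append]
      refine ⟨List.nodup_ofFn.mpr (Fin.natAdd_injective _ _),
        (List.nodup_map_iff (Fin.castAdd_injective _ _)).mpr hrn.2, ?_⟩
      intro a ha b hb hab
      rw [List.mem_ofFn] at ha
      rw [List.mem_map] at hb
      obtain ⟨j, hj⟩ := ha
      obtain ⟨x, -, hx2⟩ := hb
      rw [← hj, ← hx2] at hab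
      have := congrArg Fin.val hab
      simp at this
      omega
  obtain ⟨σ', hσ'⟩ := perm_of_list T' hnod hlen
  refine ⟨σ', ?_⟩
  unfold rlen
  rw [sum_eq_clen (d := rd2) (fun i => q (σ i)),
    sum_eq_clen (d := rd2) (fun i => q (fold hn (σ' i)))]
  have e0 : List.ofFn (fun i => q (fold hn (σ' i))) = T'.map (fun i => q (fold hn i)) := by
    rw [← hσ', List.map_ofFn]; rfl
  have e00 : List.ofFn (fun i => q (σ i)) = T.map q := by
    rw [ofFn_comp]
  rw [e0, hT', e00]
  have e1 : clen rd2 (T.map q) = clen rd2 ((i0 :: rest).map q) := by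
    rw [← hrest, List.map_rotate, clen_rotate]
  rw [e1]
  simp only [List.map_cons, List.map_append]
  have e2 : q (fold hn (Fin.castAdd t i0)) = q i0 := by
    simp [fold]
  have e3 : (List.ofFn fun j : Fin t => Fin.natAdd n j).map (fun i => q (fold hn i))
      = List.replicate t (q i0) := by
    rw [List.map_ofFn, ← List.ofFn_const]
    congr 1
    funext j
    simp [fold, hi0d]
  have e4 : (rest.map (Fin.castAdd t)).map (fun i => q (fold hn i)) = rest.map q := by
    rw [List.map_map]
    congr 1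
    funext j
    simp [fold]
  rw [e2, e3, e4]
  change pl rd2 (q i0) _ (q i0) = pl rd2 (q i0) _ (q i0)
  rw [pl_replicate rd2_self]

/-- the value of a folded exponent vector -/
theorem aval_push {n m : ℕ} (h : 0 < m) (a : Fin n × Fin n → ℕ) (q : Fin m → ℝ × ℝ) :
    aval (push h a) q = aval a (fun i => q (fold h i)) := by
  unfold aval push
  push_cast
  simp_rw [Finset.sum_mul]
  rw [Finset.sum_comm]
  refine Finset.sum_congr rfl fun f _ => ?_
  rw [Finset.sum_eq_single (fold h f.1, fold h f.2)]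
  · simp
  · intro e _ he
    rw [if_neg (fun h' => he h'.symm), zero_mul]
  · intro h'
    exact (h' (Finset.mem_univ _)).elim

/-! ### the limit -/

/-- the integral placement approximating `l * q` -/
noncomputable def ip {n : ℕ} (q : Fin n → ℝ × ℝ) (l : ℕ) (i : Fin n) : ℤ × ℤ :=
  ((n : ℤ) * ⌊(l : ℝ) * (q i).1 / n⌋ + (i : ℕ), ⌊(l : ℝ) * (q i).2⌋)

theorem ip_injective {n : ℕ} (q : Fin n → ℝ × ℝ) (l : ℕ) : Function.Injective (ip q l) := by
  intro i j h
  have h1 := congrArg Prod.fst h
  unfold ip at h1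
  simp only at h1
  have hi := i.2
  have hj := j.2
  have h2 := congrArg (fun z : ℤ => z % (n : ℤ)) h1
  simp only [Int.mul_add_emod_self_left] at h2
  rw [Int.emod_eq_of_lt (by omega) (by omega), Int.emod_eq_of_lt (by omega) (by omega)] at h2
  exact Fin.ext (by exact_mod_cast h2)

theorem ip_fst {n : ℕ} (q : Fin n → ℝ × ℝ) (l : ℕ) (i : Fin n) :
    |((ip q l i).1 : ℝ) - l * (q i).1| ≤ n := by
  have hi : ((i : ℕ) : ℝ) + 1 ≤ n := by exact_mod_cast i.2
  have hn : (0 : ℝ) < n := by
    have : 0 < n := lt_of_le_of_lt (Nat.zero_le _) i.2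
    exact_mod_cast this
  have h1 := Int.floor_le ((l : ℝ) * (q i).1 / n)
  have h2 := Int.lt_floor_add_one ((l : ℝ) * (q i).1 / n)
  rw [le_div_iff₀ hn] at h1
  rw [div_lt_iff₀ hn] at h2
  unfold ip
  push_cast
  rw [abs_le]
  have hi0 : (0 : ℝ) ≤ ((i : ℕ) : ℝ) := by positivity
  constructor <;> nlinarith

theorem ip_snd {n : ℕ} (q : Fin n → ℝ × ℝ) (l : ℕ) (i : Fin n) :
    |((ip q l i).2 : ℝ) - l * (q i).2| ≤ n := by
  have hi : ((i : ℕ) : ℝ) + 1 ≤ n := by exact_mod_cast i.2
  have hi0 : (0 : ℝ) ≤ ((i : ℕ) : ℝ) := by positivity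
  have h1 := Int.floor_le ((l : ℝ) * (q i).2)
  have h2 := Int.lt_floor_add_one ((l : ℝ) * (q i).2)
  unfold ip
  rw [abs_le]
  constructor <;> linarith

theorem ip_dist {n : ℕ} (q : Fin n → ℝ × ℝ) (l : ℕ) (i j : Fin n) :
    |Pool.Agent.Helper52.ETSP.edist (ip q l i) (ip q l j) - l * rd2 (q i) (q j)| ≤ 4 * n := by
  rw [edist_eq, ← rd2_scale (by positivity : (0 : ℝ) ≤ l)]
  set P : Fin n → ℝ × ℝ := fun i => (((ip q l i).1 : ℝ), ((ip q l i).2 : ℝ)) with hP
  set Q : Fin n → ℝ × ℝ := fun i => (l * (q i).1, l * (q i).2) with hQ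
  have key : ∀ i, rd2 (P i) (Q i) ≤ 2 * n := by
    intro i
    refine (rd2_le _ _).trans ?_
    have h1 := ip_fst q l i
    have h2 := ip_snd q l i
    simp only [hP, hQ]
    linarith
  have key' : ∀ i, rd2 (Q i) (P i) ≤ 2 * n := fun i => by rw [rd2_comm]; exact key i
  change |rd2 (P i) (P j) - rd2 (Q i) (Q j)| ≤ 4 * n
  rw [abs_le]
  have a1 := rd2_tri (P i) (Q i) (P j)
  have a2 := rd2_tri (Q i) (Q j) (P j)
  have a3 := rd2_tri (Q i) (P i) (Q j)
  have a4 := rd2_tri (P i) (P j) (Q j)
  have b1 := key i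
  have b2 := key j
  have b3 := key' i
  have b4 := key' j
  constructor <;> linarith

theorem ip_tour {n : ℕ} (q : Fin n → ℝ × ℝ) (l : ℕ) (σ : Equiv.Perm (Fin n)) :
    |tourLen (ip q l) σ - l * rlen q σ| ≤ n * (4 * n) := by
  unfold tourLen rlen
  rw [Finset.mul_sum, ← Finset.sum_sub_distrib]
  refine (Finset.abs_sum_le_sum_abs _ _).trans ?_
  refine (Finset.sum_le_sum fun i _ => ip_dist q l _ _).trans ?_
  simp

theorem ip_mon {n : ℕ} (q : Fin n → ℝ × ℝ) (l : ℕ) (z : Mon (Fin n × Fin n)) :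
    |z.val (fun e => Pool.Agent.Helper52.ETSP.edist (ip q l e.1) (ip q l e.2)) - l * aval z.1 q|
      ≤ (∑ e, (z.1 e : ℝ)) * (4 * n) + |z.2| := by
  unfold Mon.val aval
  have e1 : (∑ e, (z.1 e : ℝ) * Pool.Agent.Helper52.ETSP.edist (ip q l e.1) (ip q l e.2) + z.2)
      - l * ∑ e, (z.1 e : ℝ) * rd2 (q e.1) (q e.2)
      = (∑ e, (z.1 e : ℝ) * (Pool.Agent.Helper52.ETSP.edist (ip q l e.1) (ip q l e.2) - l * rd2 (q e.1) (q e.2))) + z.2 := by
    simp_rw [mul_sub]
    rw [Finset.sum_sub_distrib, Finset.mul_sum]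
    have : ∀ e : Fin n × Fin n, (z.1 e : ℝ) * (l * rd2 (q e.1) (q e.2))
        = l * ((z.1 e : ℝ) * rd2 (q e.1) (q e.2)) := fun e => by ring
    simp_rw [this]
    ring
  rw [e1]
  refine (abs_add_le _ _).trans (add_le_add_left ?_ _)
  refine (Finset.abs_sum_le_sum_abs _ _).trans ?_
  rw [Finset.sum_mul]
  refine Finset.sum_le_sum fun e _ => ?_
  rw [abs_mul, abs_of_nonneg (by positivity : (0 : ℝ) ≤ (z.1 e : ℝ))]
  exact mul_le_mul_of_nonneg_left (ip_dist q l _ _) (by positivity)

theorem ev_lt {x y : ℝ} (h : x < y) (K : ℝ) : ∀ᶠ l : ℕ in Filter.atTop, l * x + K < l * y := by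
  have h1 : Filter.Tendsto (fun l : ℕ => (l : ℝ) * (y - x)) Filter.atTop Filter.atTop :=
    tendsto_natCast_atTop_atTop.atTop_mul_const (sub_pos.mpr h)
  filter_upwards [h1.eventually_gt_atTop K] with l hl
  linarith

theorem ev_near {n : ℕ} {p₀ : Fin n → ℤ × ℤ} {ε : ℝ} {q : Fin n → ℝ × ℝ}
    (hq : ∀ i, |(q i).1 - (p₀ i).1| < ε ∧ |(q i).2 - (p₀ i).2| < ε) :
    ∀ᶠ l : ℕ in Filter.atTop, 0 < l ∧
      ∀ i, |((ip q l i).1 : ℝ) - l * (p₀ i).1| ≤ ε * l ∧
        |((ip q l i).2 : ℝ) - l * (p₀ i).2| ≤ ε * l := by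
  refine (Filter.eventually_gt_atTop 0).and ?_
  rw [Filter.eventually_all]
  intro i
  filter_upwards [ev_lt (hq i).1 n, ev_lt (hq i).2 n] with l h1 h2
  have hl : (0 : ℝ) ≤ l := by positivity
  constructor
  · have a1 := abs_add_le (((ip q l i).1 : ℝ) - l * (q i).1) (l * ((q i).1 - (p₀ i).1))
    rw [abs_mul, abs_of_nonneg hl] at a1
    have a2 := ip_fst q l i
    have e : ((ip q l i).1 : ℝ) - l * (q i).1 + l * ((q i).1 - (p₀ i).1)
        = ((ip q l i).1 : ℝ) - l * (p₀ i).1 := by ring
    rw [e] at a1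
    linarith
  · have a1 := abs_add_le (((ip q l i).2 : ℝ) - l * (q i).2) (l * ((q i).2 - (p₀ i).2))
    rw [abs_mul, abs_of_nonneg hl] at a1
    have a2 := ip_snd q l i
    have e : ((ip q l i).2 : ℝ) - l * (q i).2 + l * ((q i).2 - (p₀ i).2)
        = ((ip q l i).2 : ℝ) - l * (p₀ i).2 := by ring
    rw [e] at a1
    linarith

section
variable (hC1 : specC1) {n : ℕ} {p₀ : Fin n → ℤ × ℤ} {ε : ℝ} {C : List (Gate (Fin n × Fin n))}
  (hC : SolvesNear C p₀ ε) {q : Fin n → ℝ × ℝ}
  (hq : ∀ i, |(q i).1 - (p₀ i).1| < ε ∧ |(q i).2 - (p₀ i).2| < ε)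

include hC1 hC hq

theorem low_n (z : Mon (Fin n × Fin n)) (hz : z ∈ mout C) : ∃ σ, rlen q σ ≤ aval z.1 q := by
  by_contra hcon
  push Not at hcon
  have h1 : ∀ᶠ l : ℕ in Filter.atTop, ∀ σ, l * aval z.1 q
      + (((∑ e, (z.1 e : ℝ)) * (4 * n) + |z.2|) + n * (4 * n)) < l * rlen q σ := by
    rw [Filter.eventually_all]
    intro σ
    exact ev_lt (hcon σ) _
  obtain ⟨l, ⟨hl0, hln⟩, hl⟩ := ((ev_near hq).and h1).exists
  obtain ⟨⟨σ, hσ⟩, -⟩ := hC l (ip q l) hl0 (ip_injective q l) hln
  obtain ⟨-, h3⟩ := (hC1 _ C).2 (fun e => Pool.Agent.Helper52.ETSP.edist (ip q l e.1) (ip q l e.2))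
  have h4 := h3 ⟨z, hz, rfl⟩
  have h5 := abs_le.mp (ip_tour q l σ)
  have h6 := abs_le.mp (ip_mon q l z)
  have h7 := hl σ
  rw [← hσ] at h4
  linarith [h5.1, h6.2]

theorem upp_n : ∃ z ∈ mout C, ∀ σ, aval z.1 q ≤ rlen q σ := by
  by_contra hcon
  push Not at hcon
  have hfin : (mout C).Finite := (hC1 _ C).1
  have h1 : ∀ᶠ l : ℕ in Filter.atTop, ∀ z ∈ mout C, ∃ σ, l * rlen q σ
      + (((∑ e, (z.1 e : ℝ)) * (4 * n) + |z.2|) + n * (4 * n)) < l * aval z.1 q := by
    rw [Filter.eventually_all_finite hfin]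
    intro z hz
    obtain ⟨σ, hσ⟩ := hcon z hz
    filter_upwards [ev_lt hσ (((∑ e, (z.1 e : ℝ)) * (4 * n) + |z.2|) + n * (4 * n))] with l hl
    exact ⟨σ, hl⟩
  obtain ⟨l, ⟨hl0, hln⟩, hl⟩ := ((ev_near hq).and h1).exists
  obtain ⟨-, h2⟩ := hC l (ip q l) hl0 (ip_injective q l) hln
  obtain ⟨⟨z, hz, hz2⟩, -⟩ := (hC1 _ C).2 (fun e => Pool.Agent.Helper52.ETSP.edist (ip q l e.1) (ip q l e.2))
  obtain ⟨σ, hσ⟩ := hl z hz
  have h4 := h2 ⟨σ, rfl⟩
  have h5 := abs_le.mp (ip_tour q l σ)
  have h6 := abs_le.mp (ip_mon q l z)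
  rw [hz2] at h4
  linarith [h5.2, h6.1]

end

/-- (R) from the circuit to the exponent vectors -/
theorem R (hC1 : specC1) : specR := by
  intro n m h pos ε C hmn hε hC
  obtain ⟨t, rfl⟩ := Nat.exists_eq_add_of_le hmn
  have hnear : ∀ q : Fin m → ℝ × ℝ, Near pos ε q → ∀ i : Fin (m + t),
      |(q (fold h i)).1 - (place h pos i).1| < ε ∧ |(q (fold h i)).2 - (place h pos i).2| < ε := by
    intro q hq i
    unfold place
    simpa using hq (fold h i)
  refine ⟨?_, ?_, ?_⟩
  · have : {b | ∃ z ∈ mout C, b = push h z.1} = (fun z : Mon _ => push h z.1) '' mout C := by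
      ext b
      constructor
      · rintro ⟨z, hz, rfl⟩; exact ⟨z, hz, rfl⟩
      · rintro ⟨z, hz, rfl⟩; exact ⟨z, hz, rfl⟩
    rw [this]
    exact (hC1 _ C).1.image _
  · rintro q hq a ⟨z, hz, rfl⟩
    obtain ⟨σ', hσ'⟩ := low_n hC1 hC (hnear q hq) z hz
    obtain ⟨σ, hσ⟩ := exists_remove h q σ'
    exact ⟨σ, by rw [aval_push]; exact hσ.trans hσ'⟩
  · intro q hq
    obtain ⟨z, hz, hz2⟩ := upp_n hC1 hC (hnear q hq)
    refine ⟨_, ⟨z, hz, rfl⟩, fun τ => ?_⟩
    obtain ⟨σ', hσ'⟩ := exists_insert (t := t) h q τ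
    rw [aval_push, ← hσ']
    exact hz2 σ'

end Pool.Agent.Helper56.TC
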